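import Pool.Agent.V1186.Chee.Poly

set_option autoImplicit false

open MeasureTheory Set Metric
open scoped ENNReal Pointwise

namespace Pool.Agent.Results.MP_4eea03_an.RegularPolygonsNotOptimal

open Pool.Agent.V1186

/-- The polar norm `Φ_K°(x) = sup {x · y : y ∈ K}`. -/
noncomputable def polarNorm (K : Set (EuclideanSpace ℝ (Fin 2))) (x : EuclideanSpace ℝ (Fin 2)) : ℝ :=
  sSup ((fun y => inner ℝ x y) '' K)

/-- The polar set `K° = {x : Φ_K°(x) < 1}`. -/
def polarSet (K : Set (EuclideanSpace ℝ (Fin 2))) : Set (EuclideanSpace ℝ (Fin 2)) :=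
  {x | polarNorm K x < 1}

/-- `J_Ω[K] = h_K(Ω) |K°|^{1/2}`. -/
noncomputable def J (Ω K : Set (EuclideanSpace ℝ (Fin 2))) : ℝ≥0∞ :=
  Chee.cheeger K Ω * volume (polarSet K) ^ ((1:ℝ) / 2)

/-- `K` is an open convex polygon with exactly `n` sides (equivalently `n` vertices): the interior
of the convex hull of `n` points in convex position. -/
def IsPolygon (n : ℕ) (K : Set (EuclideanSpace ℝ (Fin 2))) : Prop :=
  ∃ v : Fin n → EuclideanSpace ℝ (Fin 2), ConvexIndependent ℝ v ∧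
    K = interior (convexHull ℝ (range v))

/-- The regular `n`-gon circumscribed about the unit disk (the `j`-th side has outer unit normal
`(cos (2πj/n), sin (2πj/n))`; the normals are `n`-periodic in `j`). -/
def regPoly (n : ℕ) : Set (EuclideanSpace ℝ (Fin 2)) :=
  {x | ∀ j : ℤ, Real.cos (2 * Real.pi * j / n) * x 0 + Real.sin (2 * Real.pi * j / n) * x 1 < 1}

theorem inner_eq (x y : EuclideanSpace ℝ (Fin 2)) : inner ℝ x y = x 0 * y 0 + x 1 * y 1 := by
  rw [PiLp.inner_apply, Fin.sum_univ_two]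
  simp [mul_comm]

theorem ball_sub_regPoly (n : ℕ) : ball 0 1 ⊆ regPoly n := by
  intro x hx j
  set c := Real.cos (2 * Real.pi * j / n)
  set s := Real.sin (2 * Real.pi * j / n)
  have h1 : s ^ 2 + c ^ 2 = 1 := Real.sin_sq_add_cos_sq _
  rw [mem_ball_zero_iff, EuclideanSpace.norm_eq, Real.sqrt_lt' one_pos, Fin.sum_univ_two] at hx
  simp only [Real.norm_eq_abs, sq_abs] at hx
  nlinarith [sq_nonneg (x 0 - c), sq_nonneg (x 1 - s)]

theorem regPoly_bound {n : ℕ} (hn : 4 ≤ n) {y : EuclideanSpace ℝ (Fin 2)} (hy : y ∈ regPoly n) :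
    ‖y‖ * Real.cos (Real.pi / n) < 1 := by
  have hn0 : (0:ℝ) < n := by exact_mod_cast (by omega : 0 < n)
  have hpi := Real.pi_pos
  set z : ℂ := ⟨y 0, y 1⟩ with hz
  have hznorm : ‖z‖ = ‖y‖ := by
    rw [EuclideanSpace.norm_eq, Fin.sum_univ_two]
    simp only [Real.norm_eq_abs, sq_abs]
    rw [Complex.norm_eq_sqrt_sq_add_sq]
  set φ := Complex.arg z with hφ
  have h0 : ‖y‖ * Real.cos φ = y 0 := by
    rw [← hznorm]; exact Complex.norm_mul_cos_arg z
  have h1 : ‖y‖ * Real.sin φ = y 1 := by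
    rw [← hznorm]; exact Complex.norm_mul_sin_arg z
  set k : ℤ := round (φ * n / (2 * Real.pi)) with hk
  have h2 := hy k
  rw [← h0, ← h1] at h2
  have h3 : Real.cos (2 * Real.pi * k / n) * (‖y‖ * Real.cos φ) +
      Real.sin (2 * Real.pi * k / n) * (‖y‖ * Real.sin φ) =
      ‖y‖ * Real.cos (φ - 2 * Real.pi * k / n) := by
    rw [Real.cos_sub]; ring
  rw [h3] at h2
  have h4 : |φ - 2 * Real.pi * k / n| ≤ Real.pi / n := by
    have h5 : |φ * n / (2 * Real.pi) - k| ≤ 1 / 2 := abs_sub_round _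
    have e : φ - 2 * Real.pi * k / n = (2 * Real.pi / n) * (φ * n / (2 * Real.pi) - k) := by
      field_simp
    rw [e, abs_mul, abs_of_pos (by positivity : (0:ℝ) < 2 * Real.pi / n)]
    calc 2 * Real.pi / n * |φ * n / (2 * Real.pi) - k| ≤ 2 * Real.pi / n * (1 / 2) := by gcongr
      _ = Real.pi / n := by ring
  have h6 : Real.cos (Real.pi / n) ≤ Real.cos (φ - 2 * Real.pi * k / n) := by
    rw [← Real.cos_abs (φ - 2 * Real.pi * k / n)]
    apply Real.cos_le_cos_of_nonneg_of_le_pi (abs_nonneg _) _ h4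
    rw [div_le_iff₀ hn0]
    have : (1:ℝ) ≤ n := by exact_mod_cast (by omega : 1 ≤ n)
    nlinarith
  have h7 := mul_le_mul_of_nonneg_left h6 (norm_nonneg y)
  linarith

theorem polar_regPoly {n : ℕ} (hn : 4 ≤ n) (hc : 0 < Real.cos (Real.pi / n)) :
    ball 0 (Real.cos (Real.pi / n)) ⊆ polarSet (regPoly n) := by
  intro x hx
  rw [mem_ball_zero_iff] at hx
  have h1 : polarNorm (regPoly n) x ≤ ‖x‖ / Real.cos (Real.pi / n) := by
    apply csSup_le
    · exact ⟨_, ⟨0, ball_sub_regPoly n (mem_ball_self one_pos), rfl⟩⟩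
    · rintro _ ⟨y, hy, rfl⟩
      rw [le_div_iff₀ hc]
      have h2 := real_inner_le_norm x y
      have h3 := regPoly_bound hn hy
      calc inner ℝ x y * Real.cos (Real.pi / n) ≤ ‖x‖ * ‖y‖ * Real.cos (Real.pi / n) :=
            mul_le_mul_of_nonneg_right h2 hc.le
        _ = ‖x‖ * (‖y‖ * Real.cos (Real.pi / n)) := by ring
        _ ≤ ‖x‖ * 1 := mul_le_mul_of_nonneg_left h3.le (norm_nonneg x)
        _ = ‖x‖ := mul_one _
  exact h1.trans_lt (by rwa [div_lt_one hc])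

theorem J_reg_ge {n : ℕ} (hn : 4 ≤ n) (hc : 0 < Real.cos (Real.pi / n)) :
    ENNReal.ofReal (2 * √(Real.cos (Real.pi / n) ^ 2 * Real.pi)) ≤ J (ball 0 1) (regPoly n) := by
  unfold J
  have h1 : ENNReal.ofReal 2 ≤ Chee.cheeger (regPoly n) (ball 0 1) := by
    have := Chee.cheeger_ball_ge (ball_sub_regPoly n)
    simpa using this
  have h2 : ENNReal.ofReal (√(Real.cos (Real.pi / n) ^ 2 * Real.pi)) ≤
      volume (polarSet (regPoly n)) ^ ((1:ℝ) / 2) := by
    have h3 := measure_mono (μ := volume) (polar_regPoly hn hc)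
    rw [EuclideanSpace.volume_ball_fin_two] at h3
    have h4 := ENNReal.rpow_le_rpow h3 (by norm_num : (0:ℝ) ≤ 1 / 2)
    refine le_trans (le_of_eq ?_) h4
    rw [Real.sqrt_eq_rpow, ← ENNReal.ofReal_rpow_of_nonneg (by positivity) (by norm_num),
      ENNReal.ofReal_mul (by positivity), ENNReal.ofReal_pow hc.le]
  rw [ENNReal.ofReal_mul (by norm_num)]
  exact mul_le_mul' h1 h2

theorem polar_PP {q : ℕ} (hq : 0 < q) :
    polarSet (Chee.PP q) ⊆ {x | |x 0| + |x 1| ≤ 2000 / 1999} := by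
  intro x hx
  have hdl : Chee.dl = 1 / 2000 := rfl
  have hbdd : BddAbove ((fun y => inner ℝ x y) '' Chee.PP q) := by
    obtain ⟨r, hr⟩ := (Chee.PP_aniso hq).bounded.subset_closedBall 0
    refine ⟨‖x‖ * r, ?_⟩
    rintro _ ⟨y, hy, rfl⟩
    have h1 : ‖y‖ ≤ r := by simpa using hr hy
    exact (real_inner_le_norm x y).trans (mul_le_mul_of_nonneg_left h1 (norm_nonneg x))
  have hlt : ∀ y ∈ Chee.PP q, inner ℝ x y < 1 := fun y hy =>
    (le_csSup hbdd ⟨y, hy, rfl⟩).trans_lt hx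
  -- test points
  have key : ∀ t : ℝ, 0 < t → t < 1999 / 2000 → t * (|x 0| + |x 1|) < 1 := by
    intro t ht0 ht1
    obtain ⟨s0, hs0, hs0'⟩ : ∃ s : ℝ, |s| ≤ 1 ∧ s * x 0 = |x 0| := by
      rcases abs_cases (x 0) with ⟨e, -⟩ | ⟨e, -⟩
      · exact ⟨1, by norm_num, by rw [e, one_mul]⟩
      · exact ⟨-1, by norm_num, by rw [e]; ring⟩
    obtain ⟨s1, hs1, hs1'⟩ : ∃ s : ℝ, |s| ≤ 1 ∧ s * x 1 = |x 1| := by
      rcases abs_cases (x 1) with ⟨e, -⟩ | ⟨e, -⟩
      · exact ⟨1, by norm_num, by rw [e, one_mul]⟩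
      · exact ⟨-1, by norm_num, by rw [e]; ring⟩
    have hmem : Chee.emb (t * s0, t * s1) ∈ Chee.PP q := by
      apply Chee.sub_PP hq
      show |t * s0| < 1 - Chee.dl ∧ |t * s1| < 1 - Chee.dl
      rw [abs_mul, abs_mul, abs_of_pos ht0, hdl]
      constructor
      · calc t * |s0| ≤ t * 1 := mul_le_mul_of_nonneg_left hs0 ht0.le
          _ < 1 - 1 / 2000 := by linarith
      · calc t * |s1| ≤ t * 1 := mul_le_mul_of_nonneg_left hs1 ht0.le
          _ < 1 - 1 / 2000 := by linarith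
    have h1 := hlt _ hmem
    rw [inner_eq] at h1
    have e : x 0 * (Chee.emb (t * s0, t * s1)) 0 + x 1 * (Chee.emb (t * s0, t * s1)) 1 =
        t * (|x 0| + |x 1|) := by
      rw [Chee.emb_zero, Chee.emb_one, ← hs0', ← hs1']; ring
    rwa [e] at h1
  show |x 0| + |x 1| ≤ 2000 / 1999
  by_contra hcon
  push Not at hcon
  set S := |x 0| + |x 1| with hS
  have hS0 : 0 < S := by linarith
  have h1 : 1 / S < 1999 / 2000 := by
    rw [div_lt_iff₀ hS0]; linarith
  have h2 := key (1 / S) (by positivity) h1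
  rw [one_div, inv_mul_cancel₀ hS0.ne'] at h2
  exact lt_irrefl _ h2

theorem J_PP_le {q : ℕ} (hq : 0 < q) : J (ball 0 1) (Chee.PP q) ≤
    ENNReal.ofReal (2001 / 2000 * (96 / 13 / (2978 / 1000)) * √(2 * (2000 / 1999) ^ 2)) := by
  unfold J
  have hdl : Chee.dl = 1 / 2000 := rfl
  have h1 : Chee.cheeger (Chee.PP q) (ball 0 1) ≤
      ENNReal.ofReal (2001 / 2000 * (96 / 13 / (2978 / 1000))) := by
    refine (Chee.cheeger_le (s := 1 + Chee.dl) (by rw [hdl]; norm_num) (Chee.PP_sub q) _).trans ?_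
    rw [ENNReal.ofReal_mul (by norm_num)]
    refine mul_le_mul' (ENNReal.ofReal_le_ofReal (by rw [hdl]; norm_num)) Chee.cheeger_sq_le
  have h2 : volume (polarSet (Chee.PP q)) ^ ((1:ℝ) / 2) ≤
      ENNReal.ofReal (√(2 * (2000 / 1999) ^ 2)) := by
    have h3 := measure_mono (μ := volume) (polar_PP hq)
    rw [Chee.diamond _ (by norm_num)] at h3
    refine (ENNReal.rpow_le_rpow h3 (by norm_num)).trans (le_of_eq ?_)
    rw [Real.sqrt_eq_rpow, ENNReal.ofReal_rpow_of_nonneg (by positivity) (by norm_num)]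
  rw [ENNReal.ofReal_mul (by norm_num)]
  exact mul_le_mul' h1 h2

theorem numeric {n : ℕ} (hn : 24 ≤ n) :
    0 < Real.cos (Real.pi / n) ∧
    2001 / 2000 * (96 / 13 / (2978 / 1000)) * √(2 * (2000 / 1999) ^ 2) <
      2 * √(Real.cos (Real.pi / n) ^ 2 * Real.pi) := by
  have hn0 : (0:ℝ) < n := by exact_mod_cast (by omega : 0 < n)
  have hn24 : (24:ℝ) ≤ n := by exact_mod_cast hn
  have hpi1 := Real.pi_gt_d4
  have hpi2 := Real.pi_lt_d4
  have h1 : Real.pi / n ≤ 3.1416 / 24 := by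
    apply div_le_div₀ (by norm_num) hpi2.le (by norm_num) hn24
  have h2 : 0 ≤ Real.pi / n := by positivity
  have h3 : (Real.pi / n) ^ 2 ≤ (3.1416 / 24) ^ 2 := pow_le_pow_left₀ h2 h1 2
  have h4 := Real.one_sub_sq_div_two_le_cos (x := Real.pi / n)
  have h5 : (0.99143 : ℝ) ≤ Real.cos (Real.pi / n) := by
    norm_num at h3 h4 ⊢
    linarith
  refine ⟨by linarith, ?_⟩
  have h6 : (0.99143 : ℝ) ^ 2 * 3.1415 ≤ Real.cos (Real.pi / n) ^ 2 * Real.pi := by
    apply mul_le_mul (pow_le_pow_left₀ (by norm_num) h5 2) hpi1.le (by norm_num) (by positivity)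
  have h7 : √((0.99143 : ℝ) ^ 2 * 3.1415) ≤ √(Real.cos (Real.pi / n) ^ 2 * Real.pi) :=
    Real.sqrt_le_sqrt h6
  refine lt_of_lt_of_le ?_ (mul_le_mul_of_nonneg_left h7 (by norm_num))
  have a1 : √(2 * (2000 / 1999 : ℝ) ^ 2) < 1.41493 := by
    rw [Real.sqrt_lt' (by norm_num)]
    norm_num
  have a2 : (1.7572 : ℝ) < √((0.99143 : ℝ) ^ 2 * 3.1415) := by
    apply Real.lt_sqrt_of_sq_lt
    norm_num
  nlinarith

/-- **Regular polygons are not optimal**: for every even `n ≥ 24` some centrally symmetric convex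
`n`-gon has a strictly smaller value of `J_B` than the regular `n`-gon. -/
theorem result : ∀ n : ℕ, Even n → 24 ≤ n →
    ∃ P : Set (EuclideanSpace ℝ (Fin 2)), Chee.IsAniso P ∧ IsPolygon n P ∧
      J (ball 0 1) P < J (ball 0 1) (regPoly n) := by
  intro n hev hn
  obtain ⟨m, hm⟩ := hev
  obtain ⟨q, hq⟩ : ∃ q, m = q + 1 := ⟨m - 1, by omega⟩
  have hq0 : 0 < q := by omega
  refine ⟨Chee.PP q, Chee.PP_aniso hq0, ?_, ?_⟩
  · have hcard : Fintype.card (Fin n) = Fintype.card (Bool × Option (Fin q)) := by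
      simp only [Fintype.card_fin, Fintype.card_prod, Fintype.card_bool, Fintype.card_option]
      omega
    let e : Fin n ≃ Bool × Option (Fin q) := Fintype.equivOfCardEq hcard
    refine ⟨Chee.vt q ∘ e, (Chee.vt_indep q).comp_embedding e.toEmbedding, ?_⟩
    rw [range_comp, e.range_eq_univ, image_univ]
    rfl
  · obtain ⟨hc, hnum⟩ := numeric hn
    refine (J_PP_le hq0).trans_lt (lt_of_lt_of_le ?_ (J_reg_ge (by omega) hc))
    exact (ENNReal.ofReal_lt_ofReal_iff (by positivity)).2 hnum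

end Pool.Agent.Results.MP_4eea03_an.RegularPolygonsNotOptimal
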